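import Pool.Agent.Helper26.MCE.GoalsB

/-!
Project MCE (MP_d8224a_co), packet LDS: the sum over the covering leaves.
-/

namespace Pool.Agent.Helper16.MCE

open Finset Pool.Agent.Helper87.MC Pool.Agent.Helper26.MCE

/-- the level at which the leaf `u` splits from the previous ones -/
lemma level {s : ℕ} {V : Type} {c : ℕ → V → V} (c0 : ∀ v v', c 0 v = c 0 v') (cs : ∀ v, c s v = v)
    {k : ℕ} (v : Fin k → V) (v₀ u : V) {i : ℕ} (hi : i < s) (hu : ∀ a, u ≠ v a) :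
    ∃ l < s, ((∃ a, c l u = c l (v a)) ∨ (l ≤ i ∧ c l u = c l v₀)) ∧
      (∀ a, c (l + 1) u ≠ c (l + 1) (v a)) ∧ (l < i → c (l + 1) u ≠ c (l + 1) v₀) := by
  classical
  let P : ℕ → Prop := fun l => (∃ a, c l u = c l (v a)) ∨ (l ≤ i ∧ c l u = c l v₀)
  have hP0 : P 0 := Or.inr ⟨Nat.zero_le _, c0 _ _⟩
  have hP : P (Nat.findGreatest P (s - 1)) := Nat.findGreatest_spec (Nat.zero_le _) hP0
  have hle : Nat.findGreatest P (s - 1) ≤ s - 1 := Nat.findGreatest_le _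
  have hgr : ∀ l, Nat.findGreatest P (s - 1) < l → l ≤ s - 1 → ¬ P l :=
    fun l h1 h2 => Nat.findGreatest_is_greatest h1 h2
  refine ⟨Nat.findGreatest P (s - 1), by omega, hP, ?_, ?_⟩
  · intro a h
    by_cases h1 : Nat.findGreatest P (s - 1) + 1 ≤ s - 1
    · exact hgr _ (Nat.lt_succ_self _) h1 (Or.inl ⟨a, h⟩)
    · have h2 : Nat.findGreatest P (s - 1) + 1 = s := by omega
      rw [h2, cs, cs] at h
      exact hu a h
  · intro h1 h
    exact hgr _ (Nat.lt_succ_self _) (by omega) (Or.inr ⟨h1, h⟩)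

section weights

variable {s : ℕ} {V : Type} [Fintype V] {c : ℕ → V → V} {ty : V → ℕ} {f N : ℕ → ℕ} {ρ : ℕ → ℝ} {m : ℕ}
  {lam : ℕ → ℕ}

open Classical in
lemma up1 (hF : Forest s V c ty f N ρ m lam) (hρ : ∀ i, 0 < ρ i) {l : ℕ} (hl : l < s) (v : V) :
    ((univ.filter fun u => c l u = c l v ∧ c (l + 1) u ≠ c (l + 1) v).card : ℝ) * f l ≤ ρ l * N l := by
  rcases hF.up v l hl with h | h
  · refine le_trans (mul_le_mul_of_nonneg_right ?_ (Nat.cast_nonneg _)) h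
    exact_mod_cast card_le_card fun u hu => by
      rw [mem_filter] at hu ⊢
      exact ⟨hu.1, hu.2.1⟩
  · have : (univ.filter fun u => c l u = c l v ∧ c (l + 1) u ≠ c (l + 1) v) = ∅ := by
      rw [filter_eq_empty_iff]
      rintro u - ⟨h1, h2⟩
      exact h2 (h u h1)
    rw [this, card_empty, Nat.cast_zero, zero_mul]
    exact mul_nonneg (hρ l).le (Nat.cast_nonneg _)

open Classical in
lemma up2 (hF : Forest s V c ty f N ρ m lam) (hρ : ∀ i, 0 < ρ i) {l i : ℕ} (hl : l < s) (v : V) :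
    ((univ.filter fun u => l ≤ i ∧ c l u = c l v ∧ ¬ Own c f N ρ i v u ∧
      (l < i → c (l + 1) u ≠ c (l + 1) v)).card : ℝ) * f l ≤ ρ l * N l := by
  by_cases h0 : (univ.filter fun u => l ≤ i ∧ c l u = c l v ∧ ¬ Own c f N ρ i v u ∧
      (l < i → c (l + 1) u ≠ c (l + 1) v)) = ∅
  · rw [h0, card_empty, Nat.cast_zero, zero_mul]
    exact mul_nonneg (hρ l).le (Nat.cast_nonneg _)
  obtain ⟨u, hu⟩ := nonempty_iff_ne_empty.2 h0
  rw [mem_filter] at hu
  obtain ⟨-, hli, hc, hO, hlt⟩ := hu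
  rcases lt_or_eq_of_le hli with h | h
  · refine le_trans (mul_le_mul_of_nonneg_right ?_ (Nat.cast_nonneg _)) (up1 hF hρ hl v)
    exact_mod_cast card_le_card fun u hu => by
      rw [mem_filter] at hu ⊢
      exact ⟨hu.1, hu.2.2.1, hu.2.2.2.2 h⟩
  · subst h
    have h1 : ((univ.filter fun v'' => c l v'' = c l v).card : ℝ) * f l ≤ ρ l * N l := by
      by_contra h2
      exact hO ⟨hc, not_le.1 h2⟩
    refine le_trans (mul_le_mul_of_nonneg_right ?_ (Nat.cast_nonneg _)) h1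
    exact_mod_cast card_le_card fun u hu => by
      rw [mem_filter] at hu ⊢
      exact ⟨hu.1, hu.2.2.1⟩

/-- the leaf `u` splits at the level `l` -/
def AA (c : ℕ → V → V) (f N : ℕ → ℕ) (ρ : ℕ → ℝ) (i : ℕ) (v₀ : V) {k : ℕ} (v : Fin k → V) (l : ℕ)
    (u : V) : Prop :=
  (∃ a, c l u = c l (v a) ∧ c (l + 1) u ≠ c (l + 1) (v a)) ∨
    (l ≤ i ∧ c l u = c l v₀ ∧ ¬ Own c f N ρ i v₀ u ∧ (l < i → c (l + 1) u ≠ c (l + 1) v₀))

open Classical in
lemma weight (hF : Forest s V c ty f N ρ m lam) (hρ : ∀ i, 0 < ρ i) {l i : ℕ} (hl : l < s) (v₀ : V)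
    {k : ℕ} (v : Fin k → V) :
    ((univ.filter fun u => AA c f N ρ i v₀ v l u).card : ℝ) * f l ≤ ((k : ℝ) + 1) * (ρ l * N l) := by
  have hsub : (univ.filter fun u => AA c f N ρ i v₀ v l u) ⊆
      ((univ : Finset (Fin k)).biUnion fun a =>
        univ.filter fun u => c l u = c l (v a) ∧ c (l + 1) u ≠ c (l + 1) (v a)) ∪
      (univ.filter fun u => l ≤ i ∧ c l u = c l v₀ ∧ ¬ Own c f N ρ i v₀ u ∧
        (l < i → c (l + 1) u ≠ c (l + 1) v₀)) := by
    intro u hu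
    rw [mem_filter] at hu
    rw [mem_union, mem_biUnion]
    rcases hu.2 with ⟨a, ha⟩ | h
    · exact Or.inl ⟨a, mem_univ _, mem_filter.2 ⟨mem_univ _, ha⟩⟩
    · exact Or.inr (mem_filter.2 ⟨mem_univ _, h⟩)
  have hcard := (card_le_card hsub).trans ((card_union_le _ _).trans
    (Nat.add_le_add_right card_biUnion_le _))
  have h1 : ((univ.filter fun u => AA c f N ρ i v₀ v l u).card : ℝ) ≤
      ∑ a : Fin k, ((univ.filter fun u => c l u = c l (v a) ∧ c (l + 1) u ≠ c (l + 1) (v a)).card : ℝ) +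
      ((univ.filter fun u => l ≤ i ∧ c l u = c l v₀ ∧ ¬ Own c f N ρ i v₀ u ∧
        (l < i → c (l + 1) u ≠ c (l + 1) v₀)).card : ℝ) := by
    exact_mod_cast hcard
  refine (mul_le_mul_of_nonneg_right h1 (Nat.cast_nonneg _)).trans ?_
  rw [add_mul, add_mul, one_mul, sum_mul]
  refine add_le_add ?_ (up2 hF hρ hl v₀)
  refine (sum_le_sum fun a _ => up1 hF hρ hl (v a)).trans ?_
  rw [sum_const, card_univ, Fintype.card_fin, nsmul_eq_mul]

end weights

variable {G : Type} [AddCommGroup G] [Fintype G]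

/-- the event for a tuple of leaves -/
def Ev {s : ℕ} {V : Type} [Fintype V] (D : Finset G) (K : ℕ → AddSubgroup G) (f : ℕ → ℕ) (ρ : ℕ → ℝ)
    (c : ℕ → V → V) (i : ℕ) (v₀ : V) (g : G) {k : ℕ} (b : Fin k → G) (v : Fin k → V)
    (ω : Fin s × V → G) : Prop :=
  pos c ω v₀ - g ∈ K i ∧ ∀ a, ¬ Own c f (fun i => Nat.card (K i)) ρ i v₀ (v a) ∧
    Cov D c ω (v a) (g + b a) ∧ ∀ a' < a, ¬ Cov D c ω (v a') (g + b a)

omit [Fintype G] in
lemma ev_snoc {s : ℕ} {V : Type} [Fintype V] {D : Finset G} {K : ℕ → AddSubgroup G} {f : ℕ → ℕ}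
    {ρ : ℕ → ℝ} {c : ℕ → V → V} {i : ℕ} {v₀ : V} {g : G} {k : ℕ} {b : Fin (k + 1) → G} {v : Fin k → V}
    {u : V} {ω : Fin s × V → G}
    (h : Ev D K f ρ c i v₀ g b (Fin.snoc v u : Fin (k + 1) → V) ω) :
    Ev D K f ρ c i v₀ g (fun a => b a.castSucc) v ω ∧
      ¬ Own c f (fun i => Nat.card (K i)) ρ i v₀ u ∧ Cov D c ω u (g + b (Fin.last k)) ∧
      ∀ a, ¬ Cov D c ω (v a) (g + b (Fin.last k)) := by
  obtain ⟨h1, h2⟩ := h
  refine ⟨⟨h1, fun a => ?_⟩, ?_, ?_, fun a => ?_⟩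
  · have h3 := h2 a.castSucc
    rw [Fin.snoc_castSucc] at h3
    refine ⟨h3.1, h3.2.1, fun a' ha' => ?_⟩
    have h4 := h3.2.2 a'.castSucc (Fin.castSucc_lt_castSucc_iff.2 ha')
    rwa [Fin.snoc_castSucc] at h4
  · have h3 := (h2 (Fin.last k)).1
    rwa [Fin.snoc_last] at h3
  · have h3 := (h2 (Fin.last k)).2.1
    rwa [Fin.snoc_last] at h3
  · have h3 := (h2 (Fin.last k)).2.2 a.castSucc (Fin.castSucc_lt_last a)
    rwa [Fin.snoc_castSucc] at h3

open Classical in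
/-- one leaf -/
lemma one (h1 : G_POS) (h2 : G_ONE) {s : ℕ} {V : Type} [Fintype V] {D : Finset G}
    {K : ℕ → AddSubgroup G} {f : ℕ → ℕ} {B : ℕ → Finset G} {ρ ρh : ℕ → ℝ} {t L2 : ℝ} {c : ℕ → V → V}
    {ty : V → ℕ} {m : ℕ} {lam : ℕ → ℕ} (hC : Chain D s K f B ρ ρh t L2)
    (hF : Forest s V c ty f (fun i => Nat.card (K i)) ρ m lam) {i : ℕ} (hi : i < s) (v₀ : V) (g : G)
    {k : ℕ} (b : Fin (k + 1) → G) (hb : ∀ a, b a ∈ B i) (v : Fin k → V) (u : V) {l : ℕ} (hl : l < s)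
    (hl1 : (∃ a, c l u = c l (v a)) ∨ (l ≤ i ∧ c l u = c l v₀))
    (hl2 : ∀ a, c (l + 1) u ≠ c (l + 1) (v a)) (hl3 : l < i → c (l + 1) u ≠ c (l + 1) v₀) :
    ((Om s V K).filter fun ω => Ev D K f ρ c i v₀ g b (Fin.snoc v u : Fin (k + 1) → V) ω).card *
      Nat.card (K l) ≤
      f l * ((Om s V K).filter fun ω => Ev D K f ρ c i v₀ g (fun a => b a.castSucc) v ω).card := by
  obtain ⟨P1, P2, P3, -⟩ := h1 G s V K c hC.anti hF.ref
  have hanti : ∀ {a b : ℕ}, a ≤ b → b ≤ s → K b ≤ K a := by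
    intro a b hab
    induction b, hab using Nat.le_induction with
    | base => exact fun _ => le_rfl
    | succ n hn ih => exact fun h => (hC.anti n h).trans (ih (by omega))
  set p := g + b (Fin.last k) with hp
  obtain ⟨S1, hS1⟩ : ∃ S1 : (Fin s × V → G) → Prop, ∀ ω, S1 ω ↔
    (Ev D K f ρ c i v₀ g (fun a => b a.castSucc) v ω ∧ ∀ a, ¬ Cov D c ω (v a) p) :=
    ⟨_, fun _ => Iff.rfl⟩
  have key := (h2 G s V D K c f ⟨l, hl⟩ u S1 (fun _ => p) hC.anti hF.ref (hC.fib_le l hl.le) ?_).1 ?_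
  · refine le_trans ?_ (key.trans ?_)
    · refine Nat.mul_le_mul_right _ (card_le_card fun ω hω => ?_)
      rw [mem_filter] at hω ⊢
      obtain ⟨e1, e2, e3, e4⟩ := ev_snoc hω.2
      exact ⟨hω.1, (hS1 ω).2 ⟨e1, e4⟩, e3⟩
    · refine Nat.mul_le_mul_left _ (card_le_card fun ω hω => ?_)
      rw [mem_filter] at hω ⊢
      exact ⟨hω.1, ((hS1 ω).1 hω.2).1⟩
  · intro ω hω x hx
    refine ⟨?_, rfl⟩
    have hω' : ω (⟨l, hl⟩, c (l + 1) u) ∈ K l := by
      have h3 := Fintype.mem_piFinset.1 hω (⟨l, hl⟩, c (l + 1) u)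
      exact (mem_filter.1 h3).2
    have e1 : ∀ a, pos c (Function.update ω (⟨l, hl⟩, c (l + 1) u) x) (v a) = pos c ω (v a) :=
      fun a => P2 ω ⟨l, hl⟩ _ x (v a) (hl2 a).symm
    have e2 : (pos c (Function.update ω (⟨l, hl⟩, c (l + 1) u) x) v₀ - g ∈ K i ↔
        pos c ω v₀ - g ∈ K i) := by
      by_cases hv : c (l + 1) v₀ = c (l + 1) u
      · have hil : i ≤ l := by
          by_contra h3
          exact hl3 (not_le.1 h3) hv.symm
        have h3 := P3 ω ⟨l, hl⟩ x v₀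
        change pos c (Function.update ω (⟨l, hl⟩, c (l + 1) v₀) x) v₀ =
          pos c ω v₀ - ω (⟨l, hl⟩, c (l + 1) v₀) + x at h3
        rw [hv] at h3
        rw [h3]
        have h4 : pos c ω v₀ - ω (⟨l, hl⟩, c (l + 1) u) + x - g =
            (pos c ω v₀ - g) + (x - ω (⟨l, hl⟩, c (l + 1) u)) := by abel
        rw [h4]
        exact AddSubgroup.add_mem_cancel_right _
          (hanti hil hl.le ((K l).sub_mem hx hω'))
      · rw [P2 ω ⟨l, hl⟩ _ x v₀ hv]
    simp only [hS1, Ev, Cov, e1, e2]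
  · intro ω hω hS
    obtain ⟨⟨hg, -⟩, hno⟩ := (hS1 ω).1 hS
    rcases hl1 with ⟨a, ha⟩ | ⟨hli, hc⟩
    · have h3 := P1 ω hω l hl.le u (v a) ha
      refine ⟨pos c ω u - pos c ω (v a), h3, ?_⟩
      have h4 : p - pos c ω u + (pos c ω u - pos c ω (v a)) = p - pos c ω (v a) := by abel
      rw [h4]
      exact hno a
    · have h3 := P1 ω hω l hl.le u v₀ hc
      obtain ⟨h, hh, hh'⟩ := (hC.Bsub i hi _ (hb (Fin.last k))).2
      refine ⟨(pos c ω u - pos c ω v₀) + (pos c ω v₀ - g) + h, ?_, ?_⟩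
      · exact (K l).add_mem ((K l).add_mem h3 (hanti hli hi.le hg)) (hanti hli hi.le hh)
      · have h4 : p - pos c ω u + ((pos c ω u - pos c ω v₀) + (pos c ω v₀ - g) + h) =
            b (Fin.last k) + h := by
          rw [hp]
          abel
        rw [h4]
        exact hh'

open Classical in
/-- the sum over the last leaf -/
lemma step (h1 : G_POS) (h2 : G_ONE) {s : ℕ} {V : Type} [Fintype V] {D : Finset G}
    {K : ℕ → AddSubgroup G} {f : ℕ → ℕ} {B : ℕ → Finset G} {ρ ρh : ℕ → ℝ} {t L2 : ℝ} {c : ℕ → V → V}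
    {ty : V → ℕ} {m : ℕ} {lam : ℕ → ℕ} (hC : Chain D s K f B ρ ρh t L2)
    (hF : Forest s V c ty f (fun i => Nat.card (K i)) ρ m lam) (hρ : ∀ i, 0 < ρ i) {i : ℕ} (hi : i < s)
    (v₀ : V) (g : G) {k : ℕ} (b : Fin (k + 1) → G) (hb : ∀ a, b a ∈ B i) (v : Fin k → V) :
    ∑ u : V, (((Om s V K).filter fun ω =>
      Ev D K f ρ c i v₀ g b (Fin.snoc v u : Fin (k + 1) → V) ω).card : ℝ) ≤
      (((k : ℝ) + 1) * ∑ l ∈ range s, ρ l) *
        ((Om s V K).filter fun ω => Ev D K f ρ c i v₀ g (fun a => b a.castSucc) v ω).card := by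
  set E : ℝ := (((Om s V K).filter fun ω => Ev D K f ρ c i v₀ g (fun a => b a.castSucc) v ω).card : ℝ)
    with hE
  have hE0 : 0 ≤ E := Nat.cast_nonneg _
  have hN : ∀ l, (0 : ℝ) < Nat.card (K l) := fun l => by exact_mod_cast Nat.card_pos
  have hu : ∀ u : V, (((Om s V K).filter fun ω =>
      Ev D K f ρ c i v₀ g b (Fin.snoc v u : Fin (k + 1) → V) ω).card : ℝ) ≤
      ∑ l ∈ range s, if AA c f (fun i => Nat.card (K i)) ρ i v₀ v l u then
        (f l : ℝ) / Nat.card (K l) * E else 0 := by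
    intro u
    have hnn : ∀ l ∈ range s, 0 ≤ if AA c f (fun i => Nat.card (K i)) ρ i v₀ v l u then
        (f l : ℝ) / Nat.card (K l) * E else 0 := by
      intro l _
      split_ifs
      · positivity
      · exact le_rfl
    by_cases h0 : ((Om s V K).filter fun ω =>
      Ev D K f ρ c i v₀ g b (Fin.snoc v u : Fin (k + 1) → V) ω) = ∅
    · rw [h0, card_empty, Nat.cast_zero]
      exact sum_nonneg hnn
    obtain ⟨ω, hω⟩ := nonempty_iff_ne_empty.2 h0
    rw [mem_filter] at hω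
    obtain ⟨e1, e2, e3, e4⟩ := ev_snoc hω.2
    obtain ⟨l, hl, hl1, hl2, hl3⟩ := level hF.c0 hF.cs v v₀ u hi (fun a ha => e4 a (ha ▸ e3))
    have hA : AA c f (fun i => Nat.card (K i)) ρ i v₀ v l u := by
      rcases hl1 with ⟨a, ha⟩ | ⟨h3, h4⟩
      · exact Or.inl ⟨a, ha, hl2 a⟩
      · exact Or.inr ⟨h3, h4, e2, hl3⟩
    refine le_trans ?_ (single_le_sum hnn (mem_range.2 hl))
    rw [if_pos hA]
    have key := one h1 h2 hC hF hi v₀ g b hb v u hl hl1 hl2 hl3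
    have key' : (((Om s V K).filter fun ω =>
      Ev D K f ρ c i v₀ g b (Fin.snoc v u : Fin (k + 1) → V) ω).card : ℝ) * Nat.card (K l) ≤
        f l * E := by
      rw [hE]
      exact_mod_cast key
    rw [div_mul_eq_mul_div, le_div_iff₀ (hN l)]
    exact key'
  refine (sum_le_sum fun u _ => hu u).trans ?_
  rw [sum_comm, mul_sum, sum_mul]
  refine sum_le_sum fun l hl => ?_
  rw [← sum_filter, sum_const, nsmul_eq_mul]
  have h3 := weight hF hρ (mem_range.1 hl) (i := i) v₀ v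
  have h4 : ((univ.filter fun u => AA c f (fun i => Nat.card (K i)) ρ i v₀ v l u).card : ℝ) *
      ((f l : ℝ) / Nat.card (K l) * E) =
      ((univ.filter fun u => AA c f (fun i => Nat.card (K i)) ρ i v₀ v l u).card : ℝ) * f l /
        Nat.card (K l) * E := by
    ring
  rw [h4]
  refine mul_le_mul_of_nonneg_right ?_ hE0
  rw [div_le_iff₀ (hN l), mul_assoc]
  exact h3

open Classical in
lemma sum_snoc {V : Type} [Fintype V] {k : ℕ} (F : (Fin (k + 1) → V) → ℝ) :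
    ∑ v : Fin (k + 1) → V, F v = ∑ v : Fin k → V, ∑ u : V, F (Fin.snoc v u) := by
  rw [← Fintype.sum_prod_type' (f := fun (v : Fin k → V) (u : V) => F (Fin.snoc v u))]
  refine (Fintype.sum_equiv ((Equiv.prodComm _ _).trans (Fin.snocEquiv fun _ : Fin (k + 1) => V)) _ _
    fun x => ?_).symm
  rfl

open Classical in
theorem goalLDS (h1 : G_POS) (h2 : G_ONE) : G_LDS := by
  intro G _ _ s V _ D K f B ρ ρh t L2 c ty m lam hC hF hρ i hi v₀ g k b hb
  set σ : ℝ := ∑ l ∈ range s, ρ l with hσ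
  have hσ0 : 0 ≤ σ := sum_nonneg fun l _ => (hρ l).le
  have hprod : ∀ (k : ℕ) (b : Fin k → G), (∀ a, b a ∈ B i) →
      ∑ v : Fin k → V, (((Om s V K).filter fun ω => Ev D K f ρ c i v₀ g b v ω).card : ℝ) ≤
        (∏ a ∈ range k, (((a : ℝ) + 1) * σ)) * (Om s V K).card := by
    intro k
    induction k with
    | zero =>
      intro b _
      rw [prod_range_zero, one_mul, Fintype.sum_unique]
      exact_mod_cast card_filter_le _ _
    | succ k ih =>
      intro b hb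
      rw [sum_snoc, prod_range_succ]
      refine (sum_le_sum fun v _ => step h1 h2 hC hF hρ hi v₀ g b hb v).trans ?_
      rw [← mul_sum]
      have h3 := mul_le_mul_of_nonneg_left (ih (fun a => b a.castSucc) fun a => hb _)
        (show 0 ≤ ((k : ℝ) + 1) * σ by positivity)
      refine h3.trans (le_of_eq ?_)
      ring
  have h3 := hprod k b hb
  have h4 : (∏ a ∈ range k, (((a : ℝ) + 1) * σ)) ≤ (k * σ) ^ k := by
    calc (∏ a ∈ range k, (((a : ℝ) + 1) * σ)) ≤ ∏ a ∈ range k, ((k : ℝ) * σ) := by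
          refine prod_le_prod (fun a _ => by positivity) fun a ha => ?_
          refine mul_le_mul_of_nonneg_right ?_ hσ0
          exact_mod_cast mem_range.1 ha
      _ = (k * σ) ^ k := by rw [prod_const, card_range]
  refine le_trans (le_of_eq ?_) (h3.trans (mul_le_mul_of_nonneg_right h4 (Nat.cast_nonneg _)))
  rw [Nat.cast_sum]
  refine sum_congr rfl fun v _ => congrArg (fun n : ℕ => (n : ℝ)) (congrArg Finset.card ?_)
  ext ω
  rw [mem_filter, mem_filter]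
  rfl

end Pool.Agent.Helper16.MCE
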